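import Pool.Agent.Y947.RL.Stm2

/-!
# Project RL (helper947): the energy inequality for a prime whose square divides `m`
-/

set_option autoImplicit false

open Finset Polynomial Module Pool.Agent.H388SL Pool.Agent.Y947.DL

namespace Pool.Agent.Y693.RL

open Pool.Agent.Y947.RL

/-- division in the group -/
lemma gset_div {m p s t : ℕ} (hm : 1 < m) (hpm : p ∣ m) (hs : s ∈ Gset m p) (ht : t ∈ Gset m p)
    (hst : s ≠ t) : ∃ u ∈ Gset m p, s ≡ u * t [MOD m] ∧ u ≠ 1 := by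
  unfold Gset at hs ht
  rw [mem_filter, mem_range] at hs ht
  obtain ⟨hs1, hs2, hs3⟩ := hs
  obtain ⟨ht1, ht2, ht3⟩ := ht
  obtain ⟨t', -, ht'⟩ := Nat.exists_mul_mod_eq_one_of_coprime ht2 hm
  have h1 : t * t' ≡ 1 [MOD m] := by
    unfold Nat.ModEq
    rw [ht', Nat.mod_eq_of_lt hm]
  have hdm : m / p ∣ m := Nat.div_dvd_of_dvd hpm
  have hcop' : t'.Coprime m := by
    have h2 : Nat.gcd (t * t') m = 1 := by
      have := h1.gcd_eq
      rwa [Nat.gcd_one_left] at this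
    exact Nat.Coprime.coprime_mul_left h2
  have h2 : t' ≡ 1 [MOD m / p] := by
    have h3 : t * t' ≡ 1 [MOD m / p] := h1.of_dvd hdm
    have h4 : t * t' ≡ 1 * t' [MOD m / p] := ht3.mul_right t'
    rw [one_mul] at h4
    exact h4.symm.trans h3
  have hmod : s * t' % m ≡ s * t' [MOD m] := Nat.mod_modEq _ _
  have hut : s ≡ s * t' % m * t [MOD m] := by
    have h3 : s * t' % m * t ≡ s * t' * t [MOD m] := hmod.mul_right t
    have h4 : s * t' * t ≡ s * 1 [MOD m] := by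
      rw [mul_assoc, mul_comm t' t]
      exact h1.mul_left s
    rw [mul_one] at h4
    exact (h3.trans h4).symm
  refine ⟨s * t' % m, ?_, hut, ?_⟩
  · unfold Gset
    rw [mem_filter, mem_range]
    refine ⟨Nat.mod_lt _ (by omega), ?_, ?_⟩
    · have h3 := hmod.gcd_eq
      unfold Nat.Coprime
      rw [h3]
      exact Nat.Coprime.mul_left hs2 hcop'
    · have h3 : s * t' % m ≡ s * t' [MOD m / p] := hmod.of_dvd hdm
      have h4 : s * t' ≡ 1 * 1 [MOD m / p] := hs3.mul h2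
      rw [one_mul] at h4
      exact h3.trans h4
  · intro h
    rw [h, one_mul] at hut
    exact hst (hut.eq_of_lt_of_lt hs1 ht1)

theorem h2 : S_PSD → S_GEN → S_SLF → S_RAM → S_FX → S_H2 := by
  intro hPSD hGEN hSLF hRAM hFX K _ _ m ζ α hC ε hε hεα R hR p hp hpm2 hex
  classical
  have hpm : p ∣ m := (dvd_pow_self p two_ne_zero).trans hpm2
  have hm4 : 4 ≤ m := by
    have h1 := Nat.le_of_dvd hC.hm hpm2
    have h2 := hp.two_le
    nlinarith
  obtain ⟨hF1, hF2, hF3, -⟩ := hFX K m ζ α hC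
  have hcard : (Gset m p).card = p := by
    rw [hF2 p hp hpm, if_pos hpm2]
  have hH := hF3 p hp hpm hpm2 hex
  have h1G : 1 ∈ Gset m p := by
    unfold Gset
    rw [mem_filter, mem_range]
    exact ⟨by omega, Nat.coprime_one_left m, rfl⟩
  have hfix1 : Fix ζ α 1 := fun σ => ⟨σ, by rw [pow_one], rfl⟩
  have h1H : 1 ∈ Hset m p ζ α := by
    unfold Hset
    rw [mem_filter]
    exact ⟨h1G, hfix1⟩
  have hHu : ∀ u ∈ Gset m p, Fix ζ α u → u = 1 := by
    intro u hu hf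
    have h2 : u ∈ Hset m p ζ α := by
      unfold Hset
      rw [mem_filter]
      exact ⟨hu, hf⟩
    exact Finset.card_le_one.1 hH.le u h2 1 h1H
  have hGc : ∀ s ∈ Gset m p, s.Coprime m := fun s hs => by
    unfold Gset at hs
    exact (mem_filter.1 hs).2.1
  obtain ⟨μ, hμ⟩ : ∃ μ : ℝ, μ = (lam α + ∑ σ, ε σ) / Nat.totient m := ⟨_, rfl⟩
  obtain ⟨n, hn⟩ : ∃ n : ℝ, n = (finrank ℚ K : ℝ) := ⟨_, rfl⟩
  have hn0 : 0 < n := by
    rw [hn]
    exact_mod_cast finrank_pos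
  have hp0 : (0 : ℝ) < p := by exact_mod_cast hp.pos
  have hφ : (finrank ℚ K : ℝ) / Nat.totient m * (2 * p * (lam α + ∑ σ, ε σ)) = n * (2 * p * μ) := by
    rw [hμ, hn]
    ring
  have hφ2 : (finrank ℚ K : ℝ) / Nat.totient m * ((p + p) * (lam α + ∑ σ, ε σ)) = n * (2 * p * μ) := by
    rw [hμ, hn]
    ring
  -- the diagonal
  have hd : ∀ s ∈ Gset m p, EP ζ α ε p p s s ≤ n * (R + 2 * p * μ) := by
    intro s hs
    have h2 := hSLF K m ζ α hC ε hε hεα p s s 1 hp.pos (hGc s hs) (hGc s hs)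
      (by rw [one_mul]) hfix1
    rw [hφ] at h2
    rw [← hn] at hR
    linarith
  -- the other pairs
  have ho : ∀ s ∈ Gset m p, ∀ t ∈ Gset m p, s ≠ t →
      EP ζ α ε p p s t ≤ n * (-Real.log p + 2 * p * μ) := by
    intro s hs t ht hst
    obtain ⟨u, hu, hut, hu1⟩ := gset_div (by omega) hpm hs ht hst
    have hnf : ¬ Fix ζ α u := fun hf => hu1 (hHu u hu hf)
    have hne : ∀ σ : K →ₐ[ℚ] ℂ, ∀ τ ∈ cls ζ ((σ ζ) ^ u), (σ α) ^ p ≠ (τ α) ^ p := by
      intro σ τ hτ h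
      exact hF1 u (hGc u hu) hnf σ τ hτ (hC.inj p hp.pos σ τ h)
    have h2 := hGEN K m ζ α hC ε hε p p s t u hp.pos hp.pos (hGc s hs) (hGc t ht) hut hne
    have h3 := hRAM K m ζ α hC.hm hC.hζ hC.hα p hp hpm u hu hne
    have h4 := Real.log_le_log (by positivity) h3
    rw [Real.log_pow, ← hn] at h4
    rw [hφ2] at h2
    linarith
  have h5 := hPSD K ζ α ε hε ℕ (Gset m p) (fun _ => p) (fun i => i) (fun _ => 1)
    (fun _ _ => hp.pos)
  simp only [one_mul] at h5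
  have h6 : ∀ s ∈ Gset m p, ∑ t ∈ Gset m p, EP ζ α ε p p s t ≤
      n * (R + 2 * p * μ) + (p - 1) * (n * (-Real.log p + 2 * p * μ)) := by
    intro s hs
    rw [← Finset.add_sum_erase _ _ hs]
    refine add_le_add (hd s hs) ?_
    refine (Finset.sum_le_card_nsmul _ _ (n * (-Real.log p + 2 * p * μ)) fun t ht =>
      ho s hs t (mem_of_mem_erase ht) (ne_of_mem_erase ht).symm).trans (le_of_eq ?_)
    rw [card_erase_of_mem hs, hcard, nsmul_eq_mul, Nat.cast_sub hp.one_le, Nat.cast_one]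
  have h7 := h5.trans (Finset.sum_le_sum h6)
  rw [Finset.sum_const, hcard, nsmul_eq_mul] at h7
  have h8 : (p : ℝ) * (n * (R + 2 * p * μ) + (p - 1) * (n * (-Real.log p + 2 * p * μ))) =
      p * n * (R + 2 * (p : ℝ) ^ 2 * μ - (p - 1) * Real.log p) := by ring
  rw [h8] at h7
  have h9 := nonneg_of_mul_nonneg_right h7 (mul_pos hp0 hn0)
  rw [← hμ]
  linarith

end Pool.Agent.Y693.RL
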